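import Pool.Agent.Q328.HIT.Hard

/-!
# The outcome of Hit is EXPTIME-complete

For each of the three outcomes, for all positions, and for the positions with exactly `t` token
types, for every `t ≥ 2`.

Lower bound: alternating register machines are played with a control token and, for every register,
one token on a four-cycle.  In contrast to Annihilation, the moving token survives a collision; the
registers are doubled and what remains after a collision is analysed by nim-sums
(`Pool.Agent.Q328.HIT.Pure`).  Upper bound: backward induction.
-/

set_option autoImplicit false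

namespace Pool.Agent.Results.MP_901ac1_lc.HitExptimeComplete

open Pool.Agent.NPC Pool.Agent.NPC.Q328.HIT Pool.Agent.H820R2.SS

/-- Completeness for `EXPTIME` under polynomial-time many-one reductions. -/
def Complete (L : Set (List Bool)) : Prop :=
  InEXPTIME L ∧ ∀ L' : Set (List Bool), InEXPTIME L' → Reduces L' L

/-- The outcome problem: the positions with a number of token types in `T` that have the outcome
`W`. -/
def Outcome (W : Hit → Prop) (T : ℕ → Prop) : Set (List Bool) :=
  lang (fun A : Hit => IsPosition A ∧ T A.2.1.length ∧ W A)

theorem not_inP {L : Set (List Bool)} (h : Complete L) : ¬ InP L := by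
  intro hP
  obtain ⟨L', h1, h2⟩ := exists_exptime_not_p
  exact h2 (InP.of_reduces (h.2 L' h1) hP)

/-- **Deciding the outcome of a Hit position is `EXPTIME`-complete**: for each of the three outcomes
(the player to move can force a win, the other player can, neither can), for all positions and for
the positions with exactly `t` token types, whatever `t ≥ 2` is. Hence none of these problems is in
`P`. -/
theorem result (W : Hit → Prop) (hW : W = MoverWins ∨ W = OtherWins ∨ W = Drawn) :
    Complete (Outcome W (fun _ => True)) ∧ ¬ InP (Outcome W (fun _ => True)) ∧
    ∀ t, 2 ≤ t → Complete (Outcome W (fun s => s = t)) ∧ ¬ InP (Outcome W (fun s => s = t)) := by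
  have key : ∀ (T : ℕ → Prop) (q : Hit → Bool), NPC.Poly q → (∀ A, q A = true ↔ T A.2.1.length) →
      ∀ t, 2 ≤ t → T t → Complete (Outcome W T) := by
    intro T q hq hT t ht hTt
    have e : Outcome W T = lang (fun A : Hit => IsPosition A ∧ q A = true ∧ W A) :=
      lang_congr fun A => by rw [hT A]
    rw [e]
    exact ⟨(exp_of hW hq).inEXPTIME, fun L' hL' =>
      hard_of hW ht (fun A hA => (hT A).2 (hA ▸ hTt)) hL'⟩
  have h0 : Complete (Outcome W (fun _ => True)) :=
    key _ (fun _ => true) (NPC.Poly.const _) (fun _ => by simp) 2 le_rfl trivial
  refine ⟨h0, not_inP h0, fun t ht => ?_⟩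
  have h1 : Complete (Outcome W (fun s => s = t)) :=
    key _ (fun A => decide (A.2.1.length = t)) (by fun_prop) (fun A => by simp) t ht rfl
  exact ⟨h1, not_inP h1⟩

end Pool.Agent.Results.MP_901ac1_lc.HitExptimeComplete
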